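import Mathlib

set_option autoImplicit false
set_option linter.deprecated false
set_option linter.unusedSectionVars false

/-!
Long-range discrete Gaussian chain: the energy as a quadratic form on boundedly supported
integer configurations.
-/

namespace Pool.Agent.Dgc

open scoped BigOperators

/-- coupling `|k|^{-α}` -/
noncomputable def J (α : ℝ) (k : ℤ) : ℝ := |(k : ℝ)| ^ (-α)

lemma J_nonneg (α : ℝ) (k : ℤ) : 0 ≤ J α k := Real.rpow_nonneg (abs_nonneg _) _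

lemma J_summable {α : ℝ} (hα : 1 < α) : Summable (J α) := Real.summable_abs_int_rpow hα

/-- configurations supported on `[-N, N]` as an additive subgroup -/
def A (N : ℕ) : AddSubgroup (ℤ → ℤ) where
  carrier := {φ | ∀ x : ℤ, (N : ℤ) < |x| → φ x = 0}
  add_mem' := by
    intro a b ha hb x hx
    simp [ha x hx, hb x hx]
  zero_mem' := by
    intro x _
    rfl
  neg_mem' := by
    intro a ha x hx
    simp [ha x hx]

lemma mem_A {N : ℕ} {φ : ℤ → ℤ} : φ ∈ A N ↔ ∀ x : ℤ, (N : ℤ) < |x| → φ x = 0 := Iff.rfl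

/-- the bilinear term -/
noncomputable def term (α : ℝ) (f g : ℤ → ℤ) (p : ℤ × ℤ) : ℝ :=
  J α (p.1 - p.2) * (((f p.1 : ℝ) - (f p.2 : ℝ)) * ((g p.1 : ℝ) - (g p.2 : ℝ)))

/-- the bilinear form -/
noncomputable def B (α : ℝ) (f g : ℤ → ℤ) : ℝ := ∑' p : ℤ × ℤ, term α f g p

/-- the energy -/
noncomputable def H (α : ℝ) (f : ℤ → ℤ) : ℝ :=
  ∑' p : ℤ × ℤ, J α (p.1 - p.2) * ((f p.1 : ℝ) - (f p.2 : ℝ)) ^ 2

/-- The energy in the form of the problem statement. -/
lemma H_eq (α : ℝ) (f : ℤ → ℤ) :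
    H α f = ∑' p : ℤ × ℤ,
      (if p.1 = p.2 then (0 : ℝ)
        else ((|p.1 - p.2| : ℤ) : ℝ) ^ (-α) * ((f p.1 : ℝ) - (f p.2 : ℝ)) ^ 2) := by
  unfold H
  congr 1
  funext p
  split_ifs with h
  · rw [h]; simp
  · unfold J; push_cast; rfl

/-- bounded support implies square summability against any summable kernel -/
lemma sq_summable {N : ℕ} {f : ℤ → ℤ} (hf : f ∈ A N) : Summable (fun x : ℤ => ((f x : ℝ)) ^ 2) := by
  apply summable_of_ne_finset_zero (s := Finset.Icc (-(N:ℤ)) N)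
  intro x hx
  have : (N : ℤ) < |x| := by
    by_contra hcon
    push Not at hcon
    rw [abs_le] at hcon
    exact hx (Finset.mem_Icc.mpr hcon)
  rw [hf x this]
  simp

/-- `(x,y) ↦ (x, x-y)` -/
def shear1 : ℤ × ℤ ≃ ℤ × ℤ where
  toFun p := (p.1, p.1 - p.2)
  invFun p := (p.1, p.1 - p.2)
  left_inv p := by ext <;> simp
  right_inv p := by ext <;> simp

/-- `(x,y) ↦ (y, x-y)` -/
def shear2 : ℤ × ℤ ≃ ℤ × ℤ where
  toFun p := (p.2, p.1 - p.2)
  invFun p := (p.2 + p.1, p.1)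
  left_inv p := by ext <;> simp
  right_inv p := by ext <;> simp

lemma summable_J_sq1 {α : ℝ} (hα : 1 < α) {N : ℕ} {f : ℤ → ℤ} (hf : f ∈ A N) :
    Summable (fun p : ℤ × ℤ => J α (p.1 - p.2) * ((f p.1 : ℝ)) ^ 2) := by
  have h := (sq_summable hf).mul_of_nonneg (J_summable hα) (fun x => sq_nonneg _) (fun k => J_nonneg α k)
  have h2 := (Equiv.summable_iff shear1).mpr h
  refine h2.congr ?_
  intro p
  simp [shear1, Function.comp, mul_comm]

lemma summable_J_sq2 {α : ℝ} (hα : 1 < α) {N : ℕ} {f : ℤ → ℤ} (hf : f ∈ A N) :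
    Summable (fun p : ℤ × ℤ => J α (p.1 - p.2) * ((f p.2 : ℝ)) ^ 2) := by
  have h := (sq_summable hf).mul_of_nonneg (J_summable hα) (fun x => sq_nonneg _) (fun k => J_nonneg α k)
  have h2 := (Equiv.summable_iff shear2).mpr h
  refine h2.congr ?_
  intro p
  simp [shear2, Function.comp, mul_comm]

lemma term_summable {α : ℝ} (hα : 1 < α) {N : ℕ} {f g : ℤ → ℤ} (hf : f ∈ A N) (hg : g ∈ A N) :
    Summable (term α f g) := by
  have h := ((summable_J_sq1 hα hf).add (summable_J_sq2 hα hf)).add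
    ((summable_J_sq1 hα hg).add (summable_J_sq2 hα hg))
  refine Summable.of_norm_bounded h ?_
  intro p
  unfold term
  rw [norm_mul, Real.norm_eq_abs, Real.norm_eq_abs, abs_of_nonneg (J_nonneg _ _)]
  have hJ := J_nonneg α (p.1 - p.2)
  set a : ℝ := (f p.1 : ℝ)
  set b : ℝ := (f p.2 : ℝ)
  set c : ℝ := (g p.1 : ℝ)
  set d : ℝ := (g p.2 : ℝ)
  have key : |(a - b) * (c - d)| ≤ (a ^ 2 + b ^ 2) + (c ^ 2 + d ^ 2) := by
    rw [abs_le]
    constructor
    · nlinarith [sq_nonneg (a - b + (c - d)), sq_nonneg (a + b), sq_nonneg (c + d)]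
    · nlinarith [sq_nonneg (a - b - (c - d)), sq_nonneg (a + b), sq_nonneg (c + d)]
  calc J α (p.1 - p.2) * |(a - b) * (c - d)|
      ≤ J α (p.1 - p.2) * ((a ^ 2 + b ^ 2) + (c ^ 2 + d ^ 2)) := mul_le_mul_of_nonneg_left key hJ
    _ = _ := by ring

lemma sqterm_summable {α : ℝ} (hα : 1 < α) {N : ℕ} {f : ℤ → ℤ} (hf : f ∈ A N) :
    Summable (fun p : ℤ × ℤ => J α (p.1 - p.2) * ((f p.1 : ℝ) - (f p.2 : ℝ)) ^ 2) := by
  refine (term_summable hα hf hf).congr ?_
  intro p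
  unfold term
  ring

lemma H_nonneg (α : ℝ) (f : ℤ → ℤ) : 0 ≤ H α f :=
  tsum_nonneg (fun p => mul_nonneg (J_nonneg _ _) (sq_nonneg _))

/-- The parallelogram-type identity used for the change of variables. -/
lemma H_shift {α : ℝ} (hα : 1 < α) {N : ℕ} {f h k : ℤ → ℤ} (hf : f ∈ A N) (hh : h ∈ A N)
    (hk : k ∈ A N) :
    H α (f - h) + H α (f - k) - H α f = H α (f - (h + k)) - 2 * B α h k := by
  have s1 := sqterm_summable hα ((A N).sub_mem hf hh)
  have s2 := sqterm_summable hα ((A N).sub_mem hf hk)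
  have s3 := sqterm_summable hα hf
  have s4 := sqterm_summable hα ((A N).sub_mem hf ((A N).add_mem hh hk))
  have s5 := term_summable hα hh hk
  unfold H B
  rw [← s1.tsum_add s2, ← (s1.add s2).tsum_sub s3, ← tsum_mul_left, ← s4.tsum_sub (s5.mul_left 2)]
  congr 1
  funext p
  unfold term
  simp only [Pi.sub_apply, Pi.add_apply]
  push_cast
  ring

lemma H_neg (α : ℝ) (f : ℤ → ℤ) : H α (-f) = H α f := by
  unfold H
  congr 1
  funext p
  simp only [Pi.neg_apply]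
  push_cast
  ring

/-- bilinear expansion over finite families -/
lemma B_sum {α : ℝ} (hα : 1 < α) {N : ℕ} {ι κ : Type*} (s : Finset ι) (t : Finset κ)
    (f : ι → ℤ → ℤ) (g : κ → ℤ → ℤ) (hf : ∀ i ∈ s, f i ∈ A N) (hg : ∀ j ∈ t, g j ∈ A N) :
    B α (∑ i ∈ s, f i) (∑ j ∈ t, g j) = ∑ i ∈ s, ∑ j ∈ t, B α (f i) (g j) := by
  unfold B
  have h1 : ∀ i ∈ s, ∑ j ∈ t, ∑' p, term α (f i) (g j) p = ∑' p, ∑ j ∈ t, term α (f i) (g j) p := by
    intro i hi
    rw [Summable.tsum_finsetSum]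
    intro j hj
    exact term_summable hα (hf i hi) (hg j hj)
  rw [Finset.sum_congr rfl h1, ← Summable.tsum_finsetSum]
  · congr 1
    funext p
    unfold term
    simp only [Finset.sum_apply]
    push_cast
    rw [← Finset.sum_sub_distrib, ← Finset.sum_sub_distrib, Finset.sum_mul_sum, Finset.mul_sum]
    apply Finset.sum_congr rfl
    intro i _
    rw [Finset.mul_sum]
  · intro i hi
    exact summable_sum (fun j hj => term_summable hα (hf i hi) (hg j hj))

lemma B_comm (α : ℝ) (f g : ℤ → ℤ) : B α f g = B α g f := by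
  unfold B term
  congr 1
  funext p
  ring

/-- coercivity on `[-N, N]` -/
lemma H_ge {α : ℝ} (hα : 1 < α) {N : ℕ} {f : ℤ → ℤ} (hf : f ∈ A N) :
    ((2 * N + 1 : ℕ) : ℝ) ^ (-α) * ∑ x ∈ Finset.Icc (-(N:ℤ)) N, ((f x : ℝ)) ^ 2 ≤ H α f := by
  have hs := sqterm_summable hα hf
  have hinj : Set.InjOn (fun x : ℤ => (x, (N : ℤ) + 1)) (Finset.Icc (-(N:ℤ)) N : Finset ℤ) := by
    intro x _ y _ hxy
    simpa using hxy
  have h1 := hs.sum_le_tsum ((Finset.Icc (-(N:ℤ)) N).image (fun x : ℤ => (x, (N : ℤ) + 1)))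
    (fun p _ => mul_nonneg (J_nonneg α _) (sq_nonneg _))
  rw [Finset.sum_image hinj] at h1
  refine le_trans ?_ h1
  rw [Finset.mul_sum]
  apply Finset.sum_le_sum
  intro x hx
  rw [Finset.mem_Icc] at hx
  have h0 : f ((N : ℤ) + 1) = 0 := by
    apply hf
    rw [abs_of_nonneg (by omega)]
    omega
  simp only [h0]
  push_cast
  rw [sub_zero]
  apply mul_le_mul_of_nonneg_right _ (sq_nonneg _)
  unfold J
  have hxx : |((x - ((N:ℤ) + 1) : ℤ) : ℝ)| = (((N:ℤ) + 1 - x : ℤ) : ℝ) := by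
    rw [← Int.cast_abs, abs_of_nonpos (by omega)]
    congr 1
    ring
  rw [hxx]
  have h2 : (((N:ℤ) + 1 - x : ℤ) : ℝ) ≤ 2 * (N : ℝ) + 1 := by
    have : (N:ℤ) + 1 - x ≤ 2 * N + 1 := by omega
    exact_mod_cast this
  have h3 : (1 : ℝ) ≤ (((N:ℤ) + 1 - x : ℤ) : ℝ) := by
    have : (1 : ℤ) ≤ (N:ℤ) + 1 - x := by omega
    exact_mod_cast this
  exact Real.rpow_le_rpow_of_nonpos (by linarith) h2 (by linarith)

end Pool.Agent.Dgc
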