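import Pool.Agent.Helper331_dgc.Energy

set_option autoImplicit false
set_option linter.deprecated false
set_option linter.unusedSectionVars false
set_option linter.unusedVariables false

/-!
Bounds on the interaction of two centred intervals.
-/

namespace Pool.Agent.Dgc

open scoped BigOperators

lemma tail_step {p : ℝ} (hp : 1 < p) (n : ℕ) (hn : 1 ≤ n) :
    ((n : ℝ)) ^ (-p) ≤ (2 ^ p / (p - 1)) * ((n : ℝ) ^ (1 - p) - ((n : ℝ) + 1) ^ (1 - p)) := by
  have hx : (1 : ℝ) ≤ n := by exact_mod_cast hn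
  have hx0 : (0 : ℝ) < n := by linarith
  set x : ℝ := (n : ℝ) with hxdef
  set q : ℝ := p - 1 with hq
  have hq0 : 0 < q := by rw [hq]; linarith
  have hy0 : 0 < x + 1 := by linarith
  have h1 : 1 + q / (x + 1) ≤ ((x + 1) / x) ^ q := by
    have ht : 0 < (x + 1) / x := by positivity
    rw [Real.rpow_def_of_pos ht]
    have h2 := Real.add_one_le_exp (Real.log ((x + 1) / x) * q)
    have h3 := Real.one_sub_inv_le_log_of_pos ht
    have h4 : 1 - ((x + 1) / x)⁻¹ = 1 / (x + 1) := by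
      field_simp; ring
    rw [h4] at h3
    have h5 : q / (x + 1) = (1 / (x + 1)) * q := by ring
    rw [h5]
    nlinarith [mul_le_mul_of_nonneg_right h3 hq0.le]
  have h6 : x ^ (1 - p) = (x + 1) ^ (1 - p) * ((x + 1) / x) ^ q := by
    rw [Real.div_rpow hy0.le hx0.le]
    have e1 : (1 - p) = -q := by rw [hq]; ring
    rw [e1, Real.rpow_neg hx0.le, Real.rpow_neg hy0.le]
    have := (Real.rpow_pos_of_pos hy0 q).ne'
    have := (Real.rpow_pos_of_pos hx0 q).ne'
    field_simp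
  have hyp : 0 < (x + 1) ^ (1 - p) := Real.rpow_pos_of_pos hy0 _
  have h7 : q * (x + 1) ^ (-p) ≤ x ^ (1 - p) - (x + 1) ^ (1 - p) := by
    rw [h6]
    have h8 : (x + 1) ^ (-p) = (x + 1) ^ (1 - p) / (x + 1) := by
      have : (-p) = (1 - p) - 1 := by ring
      rw [this, Real.rpow_sub_one hy0.ne']
    rw [h8]
    have h9 := mul_le_mul_of_nonneg_left h1 hyp.le
    have h10 : (x + 1) ^ (1 - p) * (1 + q / (x + 1)) =
      (x + 1) ^ (1 - p) + q * ((x + 1) ^ (1 - p) / (x + 1)) := by ring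
    linarith
  have h11 : (2 : ℝ) ^ (-p) * x ^ (-p) ≤ (x + 1) ^ (-p) := by
    rw [← Real.mul_rpow (by norm_num) hx0.le]
    exact Real.rpow_le_rpow_of_nonpos hy0 (by linarith) (by linarith)
  have h2p : (0 : ℝ) < 2 ^ p := Real.rpow_pos_of_pos (by norm_num) _
  have h12 : (2 : ℝ) ^ (-p) = (2 ^ p)⁻¹ := Real.rpow_neg (by norm_num) _
  rw [h12] at h11
  have h13 : x ^ (-p) ≤ 2 ^ p * (x + 1) ^ (-p) := by
    have := mul_le_mul_of_nonneg_left h11 h2p.le
    rw [← mul_assoc, mul_inv_cancel₀ h2p.ne', one_mul] at this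
    exact this
  calc x ^ (-p) ≤ 2 ^ p * (x + 1) ^ (-p) := h13
    _ = (2 ^ p / q) * (q * (x + 1) ^ (-p)) := by field_simp
    _ ≤ _ := mul_le_mul_of_nonneg_left h7 (by positivity)

/-- tail function -/
noncomputable def R (p : ℝ) (d : ℕ) (n : ℕ) : ℝ := if d < n then (n : ℝ) ^ (-p) else 0

lemma R_nonneg (p : ℝ) (d n : ℕ) : 0 ≤ R p d n := by
  unfold R; split_ifs
  · positivity
  · exact le_refl _

lemma R_step {p : ℝ} (hp : 1 < p) (d n : ℕ) :
    R p d n ≤ (2 ^ p / (p - 1)) * (((max n (d + 1) : ℕ) : ℝ) ^ (1 - p)) -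
      (2 ^ p / (p - 1)) * (((max (n + 1) (d + 1) : ℕ) : ℝ) ^ (1 - p)) := by
  unfold R
  split_ifs with h
  · have h1 : max n (d + 1) = n := max_eq_left (by omega)
    have h2 : max (n + 1) (d + 1) = n + 1 := max_eq_left (by omega)
    rw [h1, h2]
    have := tail_step hp n (by omega)
    push_cast
    linarith
  · have h1 : max n (d + 1) = d + 1 := max_eq_right (by omega)
    have h2 : max (n + 1) (d + 1) = d + 1 := max_eq_right (by omega)
    rw [h1, h2]
    linarith

lemma R_sum {p : ℝ} (hp : 1 < p) (d L : ℕ) :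
    ∑ n ∈ Finset.range L, R p d n ≤ (2 ^ p / (p - 1)) * ((d : ℝ) + 1) ^ (1 - p) := by
  have hC : 0 ≤ (2 : ℝ) ^ p / (p - 1) := div_nonneg (by positivity) (by linarith)
  calc ∑ n ∈ Finset.range L, R p d n
      ≤ ∑ n ∈ Finset.range L, ((2 ^ p / (p - 1)) * (((max n (d + 1) : ℕ) : ℝ) ^ (1 - p)) -
      (2 ^ p / (p - 1)) * (((max (n + 1) (d + 1) : ℕ) : ℝ) ^ (1 - p))) :=
        Finset.sum_le_sum (fun n _ => R_step hp d n)
    _ = (2 ^ p / (p - 1)) * (((max 0 (d + 1) : ℕ) : ℝ) ^ (1 - p)) -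
      (2 ^ p / (p - 1)) * (((max L (d + 1) : ℕ) : ℝ) ^ (1 - p)) :=
        Finset.sum_range_sub' (fun n => (2 ^ p / (p - 1)) * (((max n (d + 1) : ℕ) : ℝ) ^ (1 - p))) L
    _ ≤ (2 ^ p / (p - 1)) * (((max 0 (d + 1) : ℕ) : ℝ) ^ (1 - p)) := by
        have : 0 ≤ (2 ^ p / (p - 1)) * (((max L (d + 1) : ℕ) : ℝ) ^ (1 - p)) :=
          mul_nonneg hC (by positivity)
        linarith
    _ = _ := by
        rw [max_eq_right (Nat.zero_le _)]
        push_cast
        rfl

/-- tail over the integers -/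
lemma RZ {p : ℝ} (hp : 1 < p) (d : ℕ) :
    Summable (fun k : ℤ => R p d k.natAbs) ∧
    ∑' k : ℤ, R p d k.natAbs ≤ 2 * ((2 ^ p / (p - 1)) * ((d : ℝ) + 1) ^ (1 - p)) := by
  have hs : Summable (R p d) := summable_of_sum_range_le (R_nonneg p d) (R_sum hp d)
  have ht : ∑' n, R p d n ≤ (2 ^ p / (p - 1)) * ((d : ℝ) + 1) ^ (1 - p) :=
    Real.tsum_le_of_sum_range_le (R_nonneg p d) (R_sum hp d)
  have hs1 : Summable (fun n => R p d (n + 1)) := (summable_nat_add_iff 1).mpr hs
  have ht1 : ∑' n, R p d (n + 1) ≤ (2 ^ p / (p - 1)) * ((d : ℝ) + 1) ^ (1 - p) := by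
    have h0 := hs.tsum_eq_zero_add
    have := R_nonneg p d 0
    linarith
  have e1 : (fun n : ℕ => R p d ((n : ℤ)).natAbs) = R p d := by
    funext n; simp
  have e2 : (fun n : ℕ => R p d (-((n : ℤ) + 1)).natAbs) = (fun n => R p d (n + 1)) := by
    funext n
    congr 1
  have H : HasSum (fun k : ℤ => R p d k.natAbs) (∑' n, R p d n + ∑' n, R p d (n + 1)) := by
    apply HasSum.of_nat_of_neg_add_one
    · rw [e1]; exact hs.hasSum
    · rw [e2]; exact hs1.hasSum
  refine ⟨H.summable, ?_⟩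
  rw [H.tsum_eq]
  linarith

/-- indicator of `[-b, b]` -/
def ind (b : ℕ) : ℤ → ℤ := fun x => if -(b:ℤ) ≤ x ∧ x ≤ b then 1 else 0

lemma ind_mem {b N : ℕ} (h : b ≤ N) : ind b ∈ A N := by
  intro x hx
  unfold ind
  rw [if_neg]
  rintro ⟨h1, h2⟩
  have : |x| ≤ (N : ℤ) := abs_le.mpr ⟨by omega, by omega⟩
  omega

lemma ind_zero (b : ℕ) : ind b 0 = 1 := by
  unfold ind
  rw [if_pos]
  constructor <;> omega

/-- `(x,y) ↦ (x-y, x)` -/
def shear3 : ℤ × ℤ ≃ ℤ × ℤ where
  toFun q := (q.2, q.2 - q.1)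
  invFun p := (p.1 - p.2, p.1)
  left_inv q := by ext <;> simp
  right_inv p := by ext <;> simp

/-- the finite set carrying the interaction at displacement `k` -/
noncomputable def S (b c : ℕ) (k : ℤ) : Finset ℤ :=
  (Finset.Icc (-(b:ℤ)) (k - c - 1) ∪ Finset.Icc ((c:ℤ) + 1) (b + k)) ∪
    (Finset.Icc ((c:ℤ) + k + 1) b ∪ Finset.Icc (k - b) (-(c:ℤ) - 1))

lemma S_card (b c : ℕ) (hbc : b ≤ c) (k : ℤ) : (S b c k).card ≤ 2 * (k.natAbs - (c - b)) := by
  unfold S
  have h1 := Finset.card_union_le (Finset.Icc (-(b:ℤ)) (k - c - 1) ∪ Finset.Icc ((c:ℤ) + 1) (b + k))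
    (Finset.Icc ((c:ℤ) + k + 1) b ∪ Finset.Icc (k - b) (-(c:ℤ) - 1))
  have h2 := Finset.card_union_le (Finset.Icc (-(b:ℤ)) (k - c - 1)) (Finset.Icc ((c:ℤ) + 1) (b + k))
  have h3 := Finset.card_union_le (Finset.Icc ((c:ℤ) + k + 1) b) (Finset.Icc (k - b) (-(c:ℤ) - 1))
  rw [Int.card_Icc, Int.card_Icc] at h2 h3
  omega

lemma ind_prod (b c : ℕ) (hbc : b ≤ c) (k x : ℤ) :
    ((ind b x : ℝ) - (ind b (x - k) : ℝ)) * ((ind c x : ℝ) - (ind c (x - k) : ℝ)) ≤
      if x ∈ S b c k then 1 else 0 := by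
  have key : (ind b x - ind b (x - k)) * (ind c x - ind c (x - k)) ≤
      if x ∈ S b c k then (1:ℤ) else 0 := by
    unfold ind S
    simp only [Finset.mem_union, Finset.mem_Icc]
    split_ifs <;> first | (exfalso; omega) | norm_num
  have := (Int.cast_le (R := ℝ)).mpr key
  push_cast at this
  exact this

/-- Interaction of two centred intervals. -/
lemma B_ind_le {α : ℝ} (hα : 2 < α) (b c : ℕ) (hbc : b ≤ c) :
    B α (ind b) (ind c) ≤
      4 * ((2 ^ (α - 1) / (α - 2)) * (((c - b : ℕ) : ℝ) + 1) ^ (2 - α)) := by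
  have hs : Summable (term α (ind b) (ind c)) :=
    term_summable (by linarith) (ind_mem hbc) (ind_mem le_rfl)
  have hs2 : Summable (fun q : ℤ × ℤ => term α (ind b) (ind c) (shear3 q)) :=
    (Equiv.summable_iff shear3).mpr hs
  unfold B
  rw [← shear3.tsum_eq (term α (ind b) (ind c)), hs2.tsum_prod]
  obtain ⟨hR1, hR2⟩ := RZ (p := α - 1) (by linarith) (c - b)
  have e0 : α - 1 - 1 = α - 2 := by ring
  have e1 : 1 - (α - 1) = 2 - α := by ring
  rw [e0, e1] at hR2
  have hinner : ∀ k : ℤ, ∑' x : ℤ, term α (ind b) (ind c) (shear3 (k, x)) ≤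
      2 * R (α - 1) (c - b) k.natAbs := by
    intro k
    have hk := hs2.prod_factor k
    have h1 : ∀ x : ℤ, term α (ind b) (ind c) (shear3 (k, x)) ≤
        if x ∈ S b c k then J α k else 0 := by
      intro x
      unfold term shear3
      simp only [Equiv.coe_fn_mk, sub_sub_cancel]
      have h2 := mul_le_mul_of_nonneg_left (ind_prod b c hbc k x) (J_nonneg α k)
      refine h2.trans (le_of_eq ?_)
      split_ifs <;> simp
    have h3 : Summable (fun x : ℤ => if x ∈ S b c k then J α k else 0) := by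
      apply summable_of_ne_finset_zero (s := S b c k)
      intro x hx
      rw [if_neg hx]
    have h4 := hk.tsum_le_tsum h1 h3
    have h5 : ∑' x : ℤ, (if x ∈ S b c k then J α k else 0) = (S b c k).card * J α k := by
      rw [tsum_eq_sum (s := S b c k) (fun x hx => if_neg hx), Finset.sum_ite_mem,
        Finset.inter_self, Finset.sum_const, nsmul_eq_mul]
    rw [h5] at h4
    refine h4.trans ?_
    have h6 := S_card b c hbc k
    unfold R
    split_ifs with h
    · have hk0 : (0 : ℝ) < |(k : ℝ)| := by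
        rw [abs_pos]
        intro hk0
        have : k = 0 := by exact_mod_cast hk0
        subst this
        simp at h
      have h7 : ((S b c k).card : ℝ) ≤ 2 * |(k : ℝ)| := by
        have h8 : (S b c k).card ≤ 2 * k.natAbs := by omega
        have h9 : ((S b c k).card : ℝ) ≤ ((2 * k.natAbs : ℕ) : ℝ) := by exact_mod_cast h8
        push_cast at h9
        rw [Nat.cast_natAbs] at h9
        push_cast at h9
        exact h9
      have h10 : ((k.natAbs : ℕ) : ℝ) = |(k : ℝ)| := by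
        rw [Nat.cast_natAbs]; push_cast; rfl
      rw [h10]
      unfold J
      have h11 : |(k : ℝ)| ^ (-(α - 1)) = |(k : ℝ)| * |(k : ℝ)| ^ (-α) := by
        have : -(α - 1) = 1 + (-α) := by ring
        rw [this, Real.rpow_add hk0, Real.rpow_one]
      rw [h11]
      have h12 : 0 ≤ |(k : ℝ)| ^ (-α) := by positivity
      nlinarith [mul_le_mul_of_nonneg_right h7 h12]
    · have h8 : (S b c k).card = 0 := by omega
      rw [h8]
      simp
  have houter := hs2.prod.tsum_le_tsum (g := fun k : ℤ => 2 * R (α - 1) (c - b) k.natAbs)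
    hinner (hR1.mul_left 2)
  rw [tsum_mul_left] at houter
  linarith

/-- the constant -/
noncomputable def C0 (α : ℝ) : ℝ := 4 * (2 ^ (α - 1) / (α - 2))

lemma C0_pos {α : ℝ} (hα : 2 < α) : 0 < C0 α := by
  unfold C0
  have : 0 < α - 2 := by linarith
  positivity

lemma B_ind_le' {α : ℝ} (hα : 2 < α) (b c d : ℕ) (h1 : d ≤ (c - b) + (b - c) + 1) (h2 : 1 ≤ d) :
    B α (ind b) (ind c) ≤ C0 α * (d : ℝ) ^ (2 - α) := by
  have hC := C0_pos hα
  have main : ∀ b c : ℕ, b ≤ c → d ≤ (c - b) + (b - c) + 1 →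
      B α (ind b) (ind c) ≤ C0 α * (d : ℝ) ^ (2 - α) := by
    intro b c hbc hd
    have h3 := B_ind_le hα b c hbc
    have h4 : (((c - b : ℕ) : ℝ) + 1) ^ (2 - α) ≤ (d : ℝ) ^ (2 - α) := by
      apply Real.rpow_le_rpow_of_nonpos
      · exact_mod_cast h2
      · have : d ≤ (c - b) + 1 := by omega
        exact_mod_cast this
      · linarith
    have h5 := mul_le_mul_of_nonneg_left h4 hC.le
    unfold C0 at h5 ⊢
    linarith
  rcases le_total b c with h | h
  · exact main b c h h1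
  · rw [B_comm]
    exact main c b h (by omega)

end Pool.Agent.Dgc
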