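import Pool.Agent.Helper331_dgc.Energy

set_option autoImplicit false
set_option linter.deprecated false
set_option linter.unusedSectionVars false
set_option linter.unusedVariables false

/-!
Summability of the Gibbs weights and the Chapman-Robbins inequality with random integer shifts.
-/

namespace Pool.Agent.Dgc

open scoped BigOperators

/-- products of a summable site weight are summable over configurations -/
lemma summable_prod {N : ℕ} {g : ℤ → ℝ} (hg0 : ∀ n, 0 ≤ g n) (hg : Summable g) :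
    Summable (fun φ : A N => ∏ x ∈ Finset.Icc (-(N:ℤ)) N, g (φ.1 x)) := by
  classical
  have hnn : ∀ φ : A N, 0 ≤ ∏ x ∈ Finset.Icc (-(N:ℤ)) N, g (φ.1 x) :=
    fun φ => Finset.prod_nonneg (fun x _ => hg0 _)
  refine summable_of_sum_le (c := ∏ x : {x // x ∈ Finset.Icc (-(N:ℤ)) N}, ∑' n, g n) hnn ?_
  intro u
  set F : Finset ℤ := (u ×ˢ Finset.Icc (-(N:ℤ)) N).image (fun q => q.1.1 q.2) with hF
  set r : A N → ({x // x ∈ Finset.Icc (-(N:ℤ)) N} → ℤ) := fun φ x => φ.1 x.1 with hr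
  have hinj : Function.Injective r := by
    intro φ ψ h
    apply Subtype.ext
    funext x
    by_cases hx : x ∈ Finset.Icc (-(N:ℤ)) N
    · exact congrFun h ⟨x, hx⟩
    · have : (N : ℤ) < |x| := by
        by_contra hcon
        push Not at hcon
        rw [abs_le] at hcon
        exact hx (Finset.mem_Icc.mpr hcon)
      rw [φ.2 x this, ψ.2 x this]
  have h1 : ∀ φ : A N, ∏ x ∈ Finset.Icc (-(N:ℤ)) N, g (φ.1 x) = ∏ x, g (r φ x) := by
    intro φ
    rw [hr]
    exact (Finset.prod_coe_sort (Finset.Icc (-(N:ℤ)) N) (fun x => g (φ.1 x))).symm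
  calc ∑ φ ∈ u, ∏ x ∈ Finset.Icc (-(N:ℤ)) N, g (φ.1 x)
      = ∑ φ ∈ u, ∏ x, g (r φ x) := Finset.sum_congr rfl (fun φ _ => h1 φ)
    _ = ∑ q ∈ u.image r, ∏ x, g (q x) := by
        rw [Finset.sum_image (fun a _ b _ h => hinj h)]
    _ ≤ ∑ q ∈ Fintype.piFinset (fun _ => F), ∏ x, g (q x) := by
        apply Finset.sum_le_sum_of_subset_of_nonneg
        · intro q hq
          rw [Finset.mem_image] at hq
          obtain ⟨φ, hφ, rfl⟩ := hq
          rw [Fintype.mem_piFinset]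
          intro x
          rw [hF, Finset.mem_image]
          exact ⟨(φ, x.1), Finset.mem_product.mpr ⟨hφ, x.2⟩, rfl⟩
        · intro q _ _
          exact Finset.prod_nonneg (fun x _ => hg0 _)
    _ = ∏ x : {x // x ∈ Finset.Icc (-(N:ℤ)) N}, ∑ n ∈ F, g n := by
        rw [Finset.prod_univ_sum]
    _ ≤ ∏ x : {x // x ∈ Finset.Icc (-(N:ℤ)) N}, ∑' n, g n := by
        apply Finset.prod_le_prod
        · intro x _
          exact Finset.sum_nonneg (fun n _ => hg0 n)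
        · intro x _
          exact hg.sum_le_tsum F (fun n _ => hg0 n)

/-- the site weight -/
noncomputable def site (κ : ℝ) (n : ℤ) : ℝ := (1 + (n : ℝ) ^ 2) * Real.exp (-κ * (n : ℝ) ^ 2)

lemma site_nonneg (κ : ℝ) (n : ℤ) : 0 ≤ site κ n :=
  mul_nonneg (by positivity) (Real.exp_pos _).le

lemma site_summable {κ : ℝ} (hκ : 0 < κ) : Summable (site κ) := by
  have hnat : Summable (fun n : ℕ => site κ (n : ℤ)) := by
    have h0 := Real.summable_pow_mul_exp_neg_nat_mul 0 hκ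
    have h2 := Real.summable_pow_mul_exp_neg_nat_mul 2 hκ
    refine Summable.of_nonneg_of_le (fun n => site_nonneg κ _) ?_ (h0.add h2)
    intro n
    unfold site
    have hexp : Real.exp (-κ * (n : ℝ) ^ 2) ≤ Real.exp (-κ * (n : ℝ)) := by
      apply Real.exp_le_exp.mpr
      have h1 : (n : ℝ) ≤ (n : ℝ) ^ 2 := by
        rcases Nat.eq_zero_or_pos n with h | h
        · subst h; simp
        · have : (1 : ℝ) ≤ n := by exact_mod_cast h
          nlinarith
      nlinarith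
    have h3 : (0 : ℝ) ≤ 1 + (n : ℝ) ^ 2 := by positivity
    push_cast
    nlinarith [mul_le_mul_of_nonneg_left hexp h3]
  refine Summable.of_nat_of_neg hnat ?_
  refine hnat.congr ?_
  intro n
  unfold site
  push_cast
  ring_nf

/-- the Gibbs weight -/
noncomputable def w (α β : ℝ) (f : ℤ → ℤ) : ℝ := Real.exp (-β * H α f)

lemma w_pos (α β : ℝ) (f : ℤ → ℤ) : 0 < w α β f := Real.exp_pos _

lemma w_le {α β : ℝ} (hα : 1 < α) (hβ : 0 < β) {N : ℕ} (φ : A N) :
    (1 + ((φ.1 0 : ℤ) : ℝ) ^ 2) * w α β φ.1 ≤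
      ∏ x ∈ Finset.Icc (-(N:ℤ)) N, site (β * ((2 * N + 1 : ℕ) : ℝ) ^ (-α)) (φ.1 x) := by
  set κ : ℝ := β * ((2 * N + 1 : ℕ) : ℝ) ^ (-α) with hκ
  unfold site
  rw [Finset.prod_mul_distrib, ← Real.exp_sum]
  have h1 : w α β φ.1 ≤ Real.exp (∑ x ∈ Finset.Icc (-(N:ℤ)) N, -κ * ((φ.1 x : ℤ) : ℝ) ^ 2) := by
    unfold w
    apply Real.exp_le_exp.mpr
    rw [← Finset.mul_sum]
    have := H_ge hα φ.2
    have h2 := mul_le_mul_of_nonneg_left this hβ.le
    rw [hκ]
    linarith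
  have h2 : (1 + ((φ.1 0 : ℤ) : ℝ) ^ 2) ≤ ∏ x ∈ Finset.Icc (-(N:ℤ)) N, (1 + ((φ.1 x : ℤ) : ℝ) ^ 2) := by
    have h0 : (0 : ℤ) ∈ Finset.Icc (-(N:ℤ)) N := by
      rw [Finset.mem_Icc]; omega
    rw [← Finset.mul_prod_erase _ _ h0]
    have h3 : (1 : ℝ) ≤ ∏ x ∈ (Finset.Icc (-(N:ℤ)) N).erase 0, (1 + ((φ.1 x : ℤ) : ℝ) ^ 2) := by
      calc (1 : ℝ) = ∏ x ∈ (Finset.Icc (-(N:ℤ)) N).erase 0, (1 : ℝ) := by simp
        _ ≤ _ := by
          apply Finset.prod_le_prod
          · intro x _; norm_num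
          · intro x _; nlinarith [sq_nonneg ((φ.1 x : ℤ) : ℝ)]
    nlinarith [sq_nonneg ((φ.1 0 : ℤ) : ℝ)]
  exact mul_le_mul h2 h1 (w_pos _ _ _).le (Finset.prod_nonneg (fun x _ => by positivity))

lemma summable_aux {α β : ℝ} (hα : 1 < α) (hβ : 0 < β) (N : ℕ) :
    Summable (fun φ : A N => (1 + ((φ.1 0 : ℤ) : ℝ) ^ 2) * w α β φ.1) := by
  have hκ : 0 < β * ((2 * N + 1 : ℕ) : ℝ) ^ (-α) := by positivity
  exact Summable.of_nonneg_of_le (fun φ => mul_nonneg (by positivity) (w_pos _ _ _).le)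
    (fun φ => w_le hα hβ φ) (summable_prod (site_nonneg _) (site_summable hκ))

lemma w_summable {α β : ℝ} (hα : 1 < α) (hβ : 0 < β) (N : ℕ) :
    Summable (fun φ : A N => w α β φ.1) := by
  refine Summable.of_nonneg_of_le (fun φ => (w_pos _ _ _).le) ?_ (summable_aux hα hβ N)
  intro φ
  nlinarith [sq_nonneg ((φ.1 0 : ℤ) : ℝ), w_pos α β φ.1, mul_nonneg (sq_nonneg ((φ.1 0 : ℤ) : ℝ)) (w_pos α β φ.1).le]

lemma sqw_summable {α β : ℝ} (hα : 1 < α) (hβ : 0 < β) (N : ℕ) :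
    Summable (fun φ : A N => ((φ.1 0 : ℤ) : ℝ) ^ 2 * w α β φ.1) := by
  refine Summable.of_nonneg_of_le (fun φ => mul_nonneg (sq_nonneg _) (w_pos _ _ _).le) ?_
    (summable_aux hα hβ N)
  intro φ
  nlinarith [sq_nonneg ((φ.1 0 : ℤ) : ℝ), w_pos α β φ.1, mul_nonneg (sq_nonneg ((φ.1 0 : ℤ) : ℝ)) (w_pos α β φ.1).le]

lemma linw_summable {α β : ℝ} (hα : 1 < α) (hβ : 0 < β) (N : ℕ) :
    Summable (fun φ : A N => ((φ.1 0 : ℤ) : ℝ) * w α β φ.1) := by
  refine Summable.of_norm_bounded (summable_aux hα hβ N) ?_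
  intro φ
  rw [norm_mul, Real.norm_eq_abs, Real.norm_eq_abs, abs_of_pos (w_pos _ _ _)]
  apply mul_le_mul_of_nonneg_right _ (w_pos _ _ _).le
  rw [abs_le]
  constructor <;> nlinarith [sq_nonneg (((φ.1 0 : ℤ) : ℝ) - 1), sq_nonneg (((φ.1 0 : ℤ) : ℝ) + 1)]

/-- partition function -/
noncomputable def Z (α β : ℝ) (N : ℕ) : ℝ := ∑' φ : A N, w α β φ.1

lemma Z_pos {α β : ℝ} (hα : 1 < α) (hβ : 0 < β) (N : ℕ) : 0 < Z α β N :=
  (w_summable hα hβ N).tsum_pos (fun φ => (w_pos _ _ _).le) 0 (w_pos _ _ _)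

/-- second moment (unnormalised) -/
noncomputable def V (α β : ℝ) (N : ℕ) : ℝ := ∑' φ : A N, ((φ.1 0 : ℤ) : ℝ) ^ 2 * w α β φ.1

lemma first_moment {α β : ℝ} (hα : 1 < α) (hβ : 0 < β) (N : ℕ) :
    ∑' φ : A N, ((φ.1 0 : ℤ) : ℝ) * w α β φ.1 = 0 := by
  have h := (Equiv.neg (A N)).tsum_eq (fun φ : A N => ((φ.1 0 : ℤ) : ℝ) * w α β φ.1)
  have h2 : ∀ φ : A N, (((Equiv.neg (A N) φ).1 0 : ℤ) : ℝ) * w α β (Equiv.neg (A N) φ).1 =
      - (((φ.1 0 : ℤ) : ℝ) * w α β φ.1) := by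
    intro φ
    have h3 : (Equiv.neg (A N) φ).1 = - φ.1 := rfl
    rw [h3]
    unfold w
    rw [H_neg]
    simp
  simp_rw [h2] at h
  rw [tsum_neg] at h
  linarith

/-- shifted weight -/
lemma tsum_shift (N : ℕ) (h : A N) (F : A N → ℝ) :
    ∑' φ : A N, F (φ - h) = ∑' φ : A N, F φ :=
  (Equiv.subRight h).tsum_eq F

lemma summable_shift {N : ℕ} (h : A N) {F : A N → ℝ} (hF : Summable F) :
    Summable (fun φ : A N => F (φ - h)) :=
  (Equiv.subRight h).summable_iff.mpr hF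

/-- product identity for shifted weights -/
lemma w_shift_mul {α β : ℝ} (hα : 1 < α) {N : ℕ} (φ h k : A N) :
    w α β (φ - h).1 * w α β (φ - k).1 / w α β φ.1 =
      w α β (φ - (h + k)).1 * Real.exp (2 * β * B α h.1 k.1) := by
  unfold w
  rw [← Real.exp_add, ← Real.exp_sub, ← Real.exp_add]
  congr 1
  have := H_shift hα φ.2 h.2 k.2
  have e1 : (φ - h).1 = φ.1 - h.1 := rfl
  have e2 : (φ - k).1 = φ.1 - k.1 := rfl
  have e3 : (φ - (h + k)).1 = φ.1 - (h.1 + k.1) := rfl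
  rw [e1, e2, e3]
  linear_combination (-β) * this

/-- Chapman-Robbins inequality with a finite family of integer shifts. -/
theorem chapman_robbins {α β : ℝ} (hα : 1 < α) (hβ : 0 < β) {N : ℕ} {ι : Type*} [Fintype ι]
    [Nonempty ι] (h : ι → A N) (s : ℝ) (hs : ∀ i, (((h i).1 0 : ℤ) : ℝ) = s) (Q : ℝ)
    (hQ : ∑ i, ∑ j, Real.exp (2 * β * B α (h i).1 (h j).1) ≤ Q * (Fintype.card ι : ℝ) ^ 2) :
    s ^ 2 * Z α β N ≤ Q * V α β N := by
  classical
  set n : ℝ := (Fintype.card ι : ℝ) with hn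
  have hn0 : 0 < n := by rw [hn]; exact_mod_cast Fintype.card_pos
  have hZ := Z_pos hα hβ N
  have hQ0 : 0 < Q := by
    by_contra hcon
    push Not at hcon
    have h1 : 0 < ∑ i, ∑ j, Real.exp (2 * β * B α (h i).1 (h j).1) :=
      Finset.sum_pos (fun i _ => Finset.sum_pos (fun j _ => Real.exp_pos _) Finset.univ_nonempty)
        Finset.univ_nonempty
    have h2 : Q * n ^ 2 ≤ 0 := mul_nonpos_of_nonpos_of_nonneg hcon (by positivity)
    linarith
  set T : A N → ℝ := fun φ => ∑ i, w α β (φ - h i).1 with hT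
  have hlin : HasSum (fun φ : A N => ((φ.1 0 : ℤ) : ℝ) * T φ) (n * (s * Z α β N)) := by
    have h1 : ∀ i : ι, HasSum (fun φ : A N => ((φ.1 0 : ℤ) : ℝ) * w α β (φ - h i).1)
        (s * Z α β N) := by
      intro i
      have hsum : Summable (fun φ : A N => ((φ.1 0 : ℤ) : ℝ) * w α β φ.1 + s * w α β φ.1) :=
        (linw_summable hα hβ N).add ((w_summable hα hβ N).mul_left s)
      have h2 := summable_shift (h i) hsum
      have h3 := tsum_shift N (h i)
        (fun φ : A N => ((φ.1 0 : ℤ) : ℝ) * w α β φ.1 + s * w α β φ.1)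
      have h4 : ∑' φ : A N, (((φ.1 0 : ℤ) : ℝ) * w α β φ.1 + s * w α β φ.1) = s * Z α β N := by
        rw [(linw_summable hα hβ N).tsum_add ((w_summable hα hβ N).mul_left s),
          first_moment hα hβ N, tsum_mul_left, zero_add]
        rfl
      rw [h4] at h3
      have h5 := h2.hasSum
      rw [h3] at h5
      have h7 : (fun φ : A N => ((φ.1 0 : ℤ) : ℝ) * w α β (φ - h i).1) =
          (fun φ : A N => (((φ - h i).1 0 : ℤ) : ℝ) * w α β (φ - h i).1 + s * w α β (φ - h i).1) := by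
        funext φ
        have h8 : (((φ - h i).1 0 : ℤ) : ℝ) = ((φ.1 0 : ℤ) : ℝ) - s := by
          have : (φ - h i).1 0 = φ.1 0 - (h i).1 0 := rfl
          rw [this, ← hs i]
          push_cast
          ring
        rw [h8]
        ring
      rw [h7]
      exact h5
    have h6 := hasSum_sum (s := Finset.univ) (fun i _ => h1 i)
    have h9 : ∑ _i : ι, s * Z α β N = n * (s * Z α β N) := by
      rw [Finset.sum_const, Finset.card_univ, nsmul_eq_mul]
    rw [h9] at h6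
    have h10 : (fun φ : A N => ((φ.1 0 : ℤ) : ℝ) * T φ) =
        (fun φ : A N => ∑ i, ((φ.1 0 : ℤ) : ℝ) * w α β (φ - h i).1) := by
      funext φ
      rw [hT, Finset.mul_sum]
    rw [h10]
    exact h6
  have hquad : HasSum (fun φ : A N => T φ ^ 2 / w α β φ.1)
      (∑ i, ∑ j, Z α β N * Real.exp (2 * β * B α (h i).1 (h j).1)) := by
    have h1 : ∀ i j : ι, HasSum (fun φ : A N => w α β (φ - h i).1 * w α β (φ - h j).1 / w α β φ.1)
        (Z α β N * Real.exp (2 * β * B α (h i).1 (h j).1)) := by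
      intro i j
      have h2 := (summable_shift (h i + h j) (w_summable hα hβ N)).hasSum
      rw [tsum_shift N (h i + h j) (fun φ : A N => w α β φ.1)] at h2
      have h3 := h2.mul_right (Real.exp (2 * β * B α (h i).1 (h j).1))
      have h4 : (fun φ : A N => w α β (φ - h i).1 * w α β (φ - h j).1 / w α β φ.1) =
          (fun φ : A N => w α β (φ - (h i + h j)).1 * Real.exp (2 * β * B α (h i).1 (h j).1)) := by
        funext φ
        exact w_shift_mul hα φ (h i) (h j)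
      rw [h4]
      exact h3
    have h6 := hasSum_sum (s := Finset.univ) (fun i _ =>
      hasSum_sum (s := Finset.univ) (fun j _ => h1 i j))
    have h7 : (fun φ : A N => T φ ^ 2 / w α β φ.1) = (fun φ : A N => ∑ i, ∑ j,
        w α β (φ - h i).1 * w α β (φ - h j).1 / w α β φ.1) := by
      funext φ
      rw [hT, sq, Finset.sum_mul_sum, Finset.sum_div]
      apply Finset.sum_congr rfl
      intro i _
      rw [Finset.sum_div]
    rw [h7]
    exact h6
  have hVs := (sqw_summable hα hβ N).hasSum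
  set c : ℝ := s / (Q * n) with hc
  have htot := (hVs.sub (hlin.mul_left (2 * c))).add (hquad.mul_left (c ^ 2))
  have hnn := htot.nonneg ?_
  · have h1 : ∑ i, ∑ j, Z α β N * Real.exp (2 * β * B α (h i).1 (h j).1) ≤ Z α β N * (Q * n ^ 2) := by
      have : ∑ i, ∑ j, Z α β N * Real.exp (2 * β * B α (h i).1 (h j).1) =
          Z α β N * ∑ i, ∑ j, Real.exp (2 * β * B α (h i).1 (h j).1) := by
        rw [Finset.mul_sum]
        apply Finset.sum_congr rfl
        intro i _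
        rw [Finset.mul_sum]
      rw [this]
      exact mul_le_mul_of_nonneg_left hQ hZ.le
    have h2 : c ^ 2 * ∑ i, ∑ j, Z α β N * Real.exp (2 * β * B α (h i).1 (h j).1) ≤
        c ^ 2 * (Z α β N * (Q * n ^ 2)) := mul_le_mul_of_nonneg_left h1 (sq_nonneg _)
    have h3 : c ^ 2 * (Z α β N * (Q * n ^ 2)) = s ^ 2 * Z α β N / Q := by
      rw [hc]; field_simp
    have h4 : 2 * c * (n * (s * Z α β N)) = 2 * (s ^ 2 * Z α β N / Q) := by
      rw [hc]; field_simp
    have h5 : s ^ 2 * Z α β N / Q ≤ V α β N := by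
      have h6 : (0:ℝ) ≤ V α β N - 2 * c * (n * (s * Z α β N)) +
        c ^ 2 * ∑ i, ∑ j, Z α β N * Real.exp (2 * β * B α (h i).1 (h j).1) := hnn
      rw [h4] at h6
      linarith
    rw [div_le_iff₀ hQ0] at h5
    linarith
  · intro φ
    have hw := w_pos α β φ.1
    have : ((φ.1 0 : ℤ) : ℝ) ^ 2 * w α β φ.1 - 2 * c * (((φ.1 0 : ℤ) : ℝ) * T φ) +
        c ^ 2 * (T φ ^ 2 / w α β φ.1) =
        w α β φ.1 * (((φ.1 0 : ℤ) : ℝ) - c * (T φ / w α β φ.1)) ^ 2 := by
      field_simp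
      ring
    rw [this]
    exact mul_nonneg hw.le (sq_nonneg _)

end Pool.Agent.Dgc
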