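import Pool.Agent.Helper331_dgc.Kernel
import Pool.Agent.Helper331_dgc.Weight

set_option autoImplicit false
set_option linter.deprecated false
set_option linter.unusedSectionVars false
set_option linter.unusedVariables false

/-!
The random integer profile and the lower bound for the variance.
-/

namespace Pool.Agent.Dgc

open scoped BigOperators

/-- distance sums -/
lemma dist_sum (f : ℕ → ℝ) (hf : ∀ m, 0 ≤ f m) (n j : ℕ) (hj : j < n) :
    ∑ k ∈ Finset.range n, f ((j - k) + (k - j)) ≤ 2 * ∑ m ∈ Finset.range n, f m := by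
  rw [← Finset.sum_filter_add_sum_filter_not (Finset.range n) (fun k => k ≤ j)]
  have h1 : ∑ k ∈ (Finset.range n).filter (fun k => k ≤ j), f ((j - k) + (k - j)) ≤
      ∑ m ∈ Finset.range n, f m := by
    have e : ∑ k ∈ (Finset.range n).filter (fun k => k ≤ j), f ((j - k) + (k - j)) =
        ∑ m ∈ ((Finset.range n).filter (fun k => k ≤ j)).image (fun k => j - k), f m := by
      rw [Finset.sum_image]
      · apply Finset.sum_congr rfl
        intro k hk
        rw [Finset.mem_filter] at hk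
        congr 1
        omega
      · intro a ha b hb hab
        simp only [Finset.coe_filter, Finset.mem_range, Set.mem_setOf_eq] at ha hb
        simp only at hab
        omega
    rw [e]
    apply Finset.sum_le_sum_of_subset_of_nonneg
    · intro m hm
      rw [Finset.mem_image] at hm
      obtain ⟨k, _, rfl⟩ := hm
      rw [Finset.mem_range]
      omega
    · intro m _ _
      exact hf m
  have h2 : ∑ k ∈ (Finset.range n).filter (fun k => ¬ k ≤ j), f ((j - k) + (k - j)) ≤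
      ∑ m ∈ Finset.range n, f m := by
    have e : ∑ k ∈ (Finset.range n).filter (fun k => ¬ k ≤ j), f ((j - k) + (k - j)) =
        ∑ m ∈ ((Finset.range n).filter (fun k => ¬ k ≤ j)).image (fun k => k - j), f m := by
      rw [Finset.sum_image]
      · apply Finset.sum_congr rfl
        intro k hk
        rw [Finset.mem_filter] at hk
        congr 1
        omega
      · intro a ha b hb hab
        simp only [Finset.coe_filter, Finset.mem_range, Set.mem_setOf_eq] at ha hb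
        simp only at hab
        omega
    rw [e]
    apply Finset.sum_le_sum_of_subset_of_nonneg
    · intro m hm
      rw [Finset.mem_image] at hm
      obtain ⟨k, hk, rfl⟩ := hm
      rw [Finset.mem_filter, Finset.mem_range] at hk
      rw [Finset.mem_range]
      omega
    · intro m _ _
      exact hf m
  linarith

/-- power sums -/
lemma pow_sum {γ : ℝ} (h0 : 0 < γ) (h1 : γ < 1) (n : ℕ) :
    ∑ m ∈ Finset.range n, ((m : ℝ) + 1) ^ (-γ) ≤ (n : ℝ) ^ (1 - γ) / (1 - γ) := by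
  have hq : 0 < 1 - γ := by linarith
  induction n with
  | zero =>
    rw [Finset.sum_range_zero]
    positivity
  | succ n ih =>
    rw [Finset.sum_range_succ]
    have hy : (0 : ℝ) < (n : ℝ) + 1 := by positivity
    have hb := rpow_one_add_le_one_add_mul_self (s := -(1 / ((n : ℝ) + 1)))
      (by
        have : 1 / ((n : ℝ) + 1) ≤ 1 := by
          rw [div_le_one hy]; linarith [Nat.cast_nonneg (α := ℝ) n]
        linarith) (p := 1 - γ) hq.le (by linarith)
    have e1 : (1 : ℝ) + -(1 / ((n : ℝ) + 1)) = (n : ℝ) / ((n : ℝ) + 1) := by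
      field_simp; ring
    rw [e1, Real.div_rpow (Nat.cast_nonneg n) hy.le] at hb
    have hyp : 0 < ((n : ℝ) + 1) ^ (1 - γ) := Real.rpow_pos_of_pos hy _
    rw [div_le_iff₀ hyp] at hb
    have e2 : ((n : ℝ) + 1) ^ (-γ) = ((n : ℝ) + 1) ^ (1 - γ) / ((n : ℝ) + 1) := by
      have : (-γ) = (1 - γ) - 1 := by ring
      rw [this, Real.rpow_sub_one hy.ne']
    have h3 : (1 - γ) * ((n : ℝ) + 1) ^ (-γ) ≤ ((n : ℝ) + 1) ^ (1 - γ) - (n : ℝ) ^ (1 - γ) := by
      rw [e2]
      have e3 : (1 + (1 - γ) * -(1 / ((n : ℝ) + 1))) * ((n : ℝ) + 1) ^ (1 - γ) =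
        ((n : ℝ) + 1) ^ (1 - γ) - (1 - γ) * (((n : ℝ) + 1) ^ (1 - γ) / ((n : ℝ) + 1)) := by ring
      rw [e3] at hb
      linarith
    have h4 : ((n : ℝ) + 1) ^ (-γ) ≤ (((n : ℝ) + 1) ^ (1 - γ) - (n : ℝ) ^ (1 - γ)) / (1 - γ) := by
      rw [le_div_iff₀ hq]; linarith
    push_cast
    have e4 : (((n : ℝ) + 1) ^ (1 - γ) - (n : ℝ) ^ (1 - γ)) / (1 - γ) =
      ((n : ℝ) + 1) ^ (1 - γ) / (1 - γ) - (n : ℝ) ^ (1 - γ) / (1 - γ) := by ring
    rw [e4] at h4
    linarith

/-- off-diagonal function -/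
noncomputable def off (γ : ℝ) (m : ℕ) : ℝ := if m = 0 then 0 else (m : ℝ) ^ (-γ)

lemma off_nonneg (γ : ℝ) (m : ℕ) : 0 ≤ off γ m := by
  unfold off; split_ifs
  · exact le_refl _
  · positivity

lemma off_sum {γ : ℝ} (h0 : 0 < γ) (h1 : γ < 1) (n : ℕ) :
    ∑ m ∈ Finset.range n, off γ m ≤ (n : ℝ) ^ (1 - γ) / (1 - γ) := by
  refine le_trans ?_ (pow_sum h0 h1 n)
  cases n with
  | zero => simp
  | succ n =>
    rw [Finset.sum_range_succ', Finset.sum_range_succ]
    have e1 : off γ 0 = 0 := by unfold off; simp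
    have e2 : ∀ m ∈ Finset.range n, off γ (m + 1) = ((m : ℝ) + 1) ^ (-γ) := by
      intro m _
      unfold off
      rw [if_neg (by omega)]
      push_cast
      rfl
    rw [e1, Finset.sum_congr rfl e2]
    have : 0 ≤ ((n : ℝ) + 1) ^ (-γ) := by positivity
    linarith

/-- radii -/
def rad {s l : ℕ} (u : Fin s → Fin l) (j : Fin s) : ℕ := 2 * j.1 * l + (u j).1

lemma rad_le {s l N : ℕ} (hN : 2 * s * l ≤ N + 1) (u : Fin s → Fin l) (j : Fin s) :
    rad u j ≤ N := by
  unfold rad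
  have h1 := (u j).2
  have h2 : j.1 + 1 ≤ s := j.2
  have h3 : 2 * (j.1 + 1) * l ≤ 2 * s * l := by gcongr
  nlinarith

lemma rad_diff {s l : ℕ} (u v : Fin s → Fin l) (j k : Fin s) (hjk : j ≠ k) :
    l * ((j.1 - k.1) + (k.1 - j.1)) ≤ (rad v k - rad u j) + (rad u j - rad v k) + 1 := by
  unfold rad
  have h1 := (u j).2
  have h2 := (v k).2
  have hne : j.1 ≠ k.1 := fun h => hjk (Fin.ext h)
  rcases Nat.lt_or_gt_of_ne hne with h | h
  · obtain ⟨m, hm⟩ : ∃ m, k.1 = j.1 + (m + 1) := ⟨k.1 - j.1 - 1, by omega⟩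
    have e1 : (j.1 - k.1) + (k.1 - j.1) = m + 1 := by omega
    rw [e1, hm]
    have e2 : 2 * (j.1 + (m + 1)) * l = 2 * j.1 * l + (l * (m + 1) + l * (m + 1)) := by ring
    rw [e2]
    have e3 : l ≤ l * (m + 1) := Nat.le_mul_of_pos_right l (by omega)
    omega
  · obtain ⟨m, hm⟩ : ∃ m, j.1 = k.1 + (m + 1) := ⟨j.1 - k.1 - 1, by omega⟩
    have e1 : (j.1 - k.1) + (k.1 - j.1) = m + 1 := by omega
    rw [e1, hm]
    have e2 : 2 * (k.1 + (m + 1)) * l = 2 * k.1 * l + (l * (m + 1) + l * (m + 1)) := by ring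
    rw [e2]
    have e3 : l ≤ l * (m + 1) := Nat.le_mul_of_pos_right l (by omega)
    omega

/-- the integer profile -/
noncomputable def prof {s l : ℕ} (u : Fin s → Fin l) : ℤ → ℤ := ∑ j : Fin s, ind (rad u j)

lemma prof_mem {s l N : ℕ} (hN : 2 * s * l ≤ N + 1) (u : Fin s → Fin l) : prof u ∈ A N :=
  (A N).sum_mem (fun j _ => ind_mem (rad_le hN u j))

lemma prof_zero {s l : ℕ} (u : Fin s → Fin l) : prof u 0 = s := by
  unfold prof
  rw [Finset.sum_apply]
  simp [ind_zero]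

/-- the diagonal kernel -/
noncomputable def dia (γ : ℝ) (a b : ℕ) : ℝ := ((((a - b) + (b - a) : ℕ) : ℝ) + 1) ^ (-γ)

lemma B_prof_le {α : ℝ} (hα : 2 < α) (hα3 : α < 3) {s l N : ℕ} (hl : 1 ≤ l)
    (hN : 2 * s * l ≤ N + 1) (u v : Fin s → Fin l) :
    B α (prof u) (prof v) ≤ C0 α * (l : ℝ) ^ (-(α - 2)) *
        ((s : ℝ) * (2 * ((s : ℝ) ^ (1 - (α - 2)) / (1 - (α - 2))))) +
      ∑ j : Fin s, C0 α * dia (α - 2) (u j).1 (v j).1 := by
  have hC := C0_pos hα
  set γ : ℝ := α - 2 with hγ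
  have e0 : (2 - α) = -γ := by rw [hγ]; ring
  unfold prof
  rw [B_sum (by linarith) Finset.univ Finset.univ (fun j => ind (rad u j)) (fun k => ind (rad v k))
    (fun j _ => ind_mem (rad_le hN u j)) (fun k _ => ind_mem (rad_le hN v k))]
  have hlpos : (0 : ℝ) < l := by exact_mod_cast hl
  have hterm : ∀ j k : Fin s, B α (ind (rad u j)) (ind (rad v k)) ≤
      C0 α * (l : ℝ) ^ (-γ) * off γ ((j.1 - k.1) + (k.1 - j.1)) +
        (if k = j then C0 α * dia γ (u j).1 (v j).1 else 0) := by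
    intro j k
    by_cases h : k = j
    · subst h
      rw [if_pos rfl]
      have h1 := B_ind_le' hα (rad u k) (rad v k) (((u k).1 - (v k).1) + ((v k).1 - (u k).1) + 1)
        (by unfold rad; omega) (by omega)
      have h2 : off γ ((k.1 - k.1) + (k.1 - k.1)) = 0 := by unfold off; simp
      rw [h2, mul_zero, zero_add]
      unfold dia
      rw [e0] at h1
      push_cast at h1 ⊢
      exact h1
    · rw [if_neg h, add_zero]
      have hjk : j ≠ k := fun e => h e.symm
      have hne : j.1 ≠ k.1 := fun e => hjk (Fin.ext e)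
      have hd := rad_diff u v j k hjk
      have hpos : 1 ≤ (j.1 - k.1) + (k.1 - j.1) := by omega
      have h1 := B_ind_le' hα (rad u j) (rad v k) (l * ((j.1 - k.1) + (k.1 - j.1))) hd
        (Nat.one_le_iff_ne_zero.mpr (Nat.mul_ne_zero (by omega) (by omega)))
      rw [e0] at h1
      refine h1.trans (le_of_eq ?_)
      unfold off
      rw [if_neg (by omega)]
      rw [Nat.cast_mul, Real.mul_rpow (Nat.cast_nonneg _) (Nat.cast_nonneg _)]
      ring
  calc ∑ j : Fin s, ∑ k : Fin s, B α (ind (rad u j)) (ind (rad v k))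
      ≤ ∑ j : Fin s, ∑ k : Fin s, (C0 α * (l : ℝ) ^ (-γ) * off γ ((j.1 - k.1) + (k.1 - j.1)) +
        (if k = j then C0 α * dia γ (u j).1 (v j).1 else 0)) :=
        Finset.sum_le_sum (fun j _ => Finset.sum_le_sum (fun k _ => hterm j k))
    _ = ∑ j : Fin s, (C0 α * (l : ℝ) ^ (-γ) * ∑ k : Fin s, off γ ((j.1 - k.1) + (k.1 - j.1)) +
        C0 α * dia γ (u j).1 (v j).1) := by
        apply Finset.sum_congr rfl
        intro j _
        rw [Finset.sum_add_distrib, ← Finset.mul_sum, Finset.sum_ite_eq' Finset.univ j,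
          if_pos (Finset.mem_univ j)]
    _ ≤ ∑ j : Fin s, (C0 α * (l : ℝ) ^ (-γ) * (2 * ((s : ℝ) ^ (1 - γ) / (1 - γ))) +
        C0 α * dia γ (u j).1 (v j).1) := by
        apply Finset.sum_le_sum
        intro j _
        have h1 : ∑ k : Fin s, off γ ((j.1 - k.1) + (k.1 - j.1)) ≤
            2 * ((s : ℝ) ^ (1 - γ) / (1 - γ)) := by
          rw [Fin.sum_univ_eq_sum_range (fun k => off γ ((j.1 - k) + (k - j.1))) s]
          have h2 := dist_sum (off γ) (off_nonneg γ) s j.1 j.2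
          have h3 := off_sum (γ := γ) (by linarith) (by linarith) s
          linarith
        have h4 : 0 ≤ C0 α * (l : ℝ) ^ (-γ) := by positivity
        have := mul_le_mul_of_nonneg_left h1 h4
        linarith
    _ = _ := by
        rw [Finset.sum_add_distrib, Finset.sum_const, Finset.card_univ, Fintype.card_fin,
          nsmul_eq_mul]
        ring

/-- elementary bound -/
lemma exp_le_lin {K x : ℝ} (hK : 0 ≤ K) (hx0 : 0 ≤ x) (hx1 : x ≤ 1) :
    Real.exp (K * x) ≤ 1 + K * Real.exp K * x := by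
  have h1 := Real.add_one_le_exp (-(K * x))
  have h2 : Real.exp (K * x) * Real.exp (-(K * x)) = 1 := by
    rw [← Real.exp_add]; simp
  have hpos := Real.exp_pos (K * x)
  have h3 := mul_le_mul_of_nonneg_left h1 hpos.le
  rw [h2] at h3
  have h4 : Real.exp (K * x) ≤ Real.exp K := by
    apply Real.exp_le_exp.mpr
    nlinarith
  have h5 : 0 ≤ K * x := mul_nonneg hK hx0
  nlinarith [mul_le_mul_of_nonneg_left h4 h5]

lemma dia_sum {γ : ℝ} (h0 : 0 < γ) (h1 : γ < 1) {K : ℝ} (hK : 0 ≤ K) (l : ℕ) (hl : 1 ≤ l) :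
    ∑ a : Fin l, ∑ b : Fin l, Real.exp (K * dia γ a.1 b.1) ≤
      (l : ℝ) ^ 2 * Real.exp (2 * (K * Real.exp K) / (1 - γ) * (l : ℝ) ^ (-γ)) := by
  have hlpos : (0 : ℝ) < l := by exact_mod_cast hl
  have hq : 0 < 1 - γ := by linarith
  set D : ℝ := K * Real.exp K with hD
  have hD0 : 0 ≤ D := mul_nonneg hK (Real.exp_pos _).le
  have hdia : ∀ a b : ℕ, 0 ≤ dia γ a b ∧ dia γ a b ≤ 1 := by
    intro a b
    unfold dia
    constructor
    · positivity
    · apply Real.rpow_le_one_of_one_le_of_nonpos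
      · linarith [Nat.cast_nonneg (α := ℝ) ((a - b) + (b - a))]
      · linarith
  have hrow : ∀ a : Fin l, ∑ b : Fin l, Real.exp (K * dia γ a.1 b.1) ≤
      l + D * (2 * ((l : ℝ) ^ (1 - γ) / (1 - γ))) := by
    intro a
    calc ∑ b : Fin l, Real.exp (K * dia γ a.1 b.1)
        ≤ ∑ b : Fin l, (1 + D * dia γ a.1 b.1) :=
          Finset.sum_le_sum (fun b _ => exp_le_lin hK (hdia _ _).1 (hdia _ _).2)
      _ = l + D * ∑ b : Fin l, dia γ a.1 b.1 := by
          rw [Finset.sum_add_distrib, ← Finset.mul_sum]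
          simp
      _ ≤ _ := by
          have h2 : ∑ b : Fin l, dia γ a.1 b.1 ≤ 2 * ((l : ℝ) ^ (1 - γ) / (1 - γ)) := by
            rw [Fin.sum_univ_eq_sum_range (fun b => dia γ a.1 b) l]
            have h3 := dist_sum (fun m => ((m : ℝ) + 1) ^ (-γ)) (fun m => by positivity) l a.1 a.2
            have h4 := pow_sum h0 h1 l
            unfold dia
            linarith
          have := mul_le_mul_of_nonneg_left h2 hD0
          linarith
  have h5 : (l : ℝ) ^ (1 - γ) = l * (l : ℝ) ^ (-γ) := by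
    have : 1 - γ = 1 + (-γ) := by ring
    rw [this, Real.rpow_add hlpos, Real.rpow_one]
  calc ∑ a : Fin l, ∑ b : Fin l, Real.exp (K * dia γ a.1 b.1)
      ≤ ∑ a : Fin l, (l + D * (2 * ((l : ℝ) ^ (1 - γ) / (1 - γ)))) :=
        Finset.sum_le_sum (fun a _ => hrow a)
    _ = (l : ℝ) ^ 2 * (2 * D / (1 - γ) * (l : ℝ) ^ (-γ) + 1) := by
        rw [Finset.sum_const, Finset.card_univ, Fintype.card_fin, nsmul_eq_mul, h5]
        ring
    _ ≤ _ := mul_le_mul_of_nonneg_left (Real.add_one_le_exp _) (by positivity)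

/-- The average of the exponential interaction of two independent profiles. -/
lemma Q_bound {α β : ℝ} (hα : 2 < α) (hα3 : α < 3) (hβ : 0 < β) {s l N : ℕ} (hs : 1 ≤ s)
    (hl : 1 ≤ l) (hN : 2 * s * l ≤ N + 1) (X : ℝ)
    (hX : (s : ℝ) ^ (2 - (α - 2)) * (l : ℝ) ^ (-(α - 2)) ≤ X) :
    ∑ u : Fin s → Fin l, ∑ v : Fin s → Fin l, Real.exp (2 * β * B α (prof u) (prof v)) ≤
      Real.exp ((4 * β * C0 α + 2 * (2 * β * C0 α * Real.exp (2 * β * C0 α))) / (1 - (α - 2)) * X)
        * (Fintype.card (Fin s → Fin l) : ℝ) ^ 2 := by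
  have hC := C0_pos hα
  set γ : ℝ := α - 2 with hγ
  have hγ0 : 0 < γ := by rw [hγ]; linarith
  have hγ1 : γ < 1 := by rw [hγ]; linarith
  have hq : 0 < 1 - γ := by linarith
  set K : ℝ := 2 * β * C0 α with hK
  have hK0 : 0 ≤ K := by rw [hK]; positivity
  have hspos : (0 : ℝ) < s := by exact_mod_cast hs
  have hlpos : (0 : ℝ) < l := by exact_mod_cast hl
  set O : ℝ := C0 α * (l : ℝ) ^ (-γ) * ((s : ℝ) * (2 * ((s : ℝ) ^ (1 - γ) / (1 - γ)))) with hO
  have h1 : ∀ u v : Fin s → Fin l, Real.exp (2 * β * B α (prof u) (prof v)) ≤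
      Real.exp (2 * β * O) * ∏ j : Fin s, Real.exp (K * dia γ (u j).1 (v j).1) := by
    intro u v
    rw [← Real.exp_sum, ← Real.exp_add]
    apply Real.exp_le_exp.mpr
    have h2 := B_prof_le hα hα3 hl hN u v
    have h3 : (0 : ℝ) ≤ 2 * β := by positivity
    have h4 := mul_le_mul_of_nonneg_left h2 h3
    refine h4.trans (le_of_eq ?_)
    rw [mul_add, ← Finset.mul_sum, ← Finset.mul_sum, hK]
    ring
  have h5 : ∑ u : Fin s → Fin l, ∑ v : Fin s → Fin l,
      ∏ j : Fin s, Real.exp (K * dia γ (u j).1 (v j).1) =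
      (∑ a : Fin l, ∑ b : Fin l, Real.exp (K * dia γ a.1 b.1)) ^ s := by
    rw [Fintype.sum_pow]
    apply Finset.sum_congr rfl
    intro u _
    rw [Finset.prod_univ_sum]
    simp
  have h6 : ∑ u : Fin s → Fin l, ∑ v : Fin s → Fin l, Real.exp (2 * β * B α (prof u) (prof v)) ≤
      Real.exp (2 * β * O) * (∑ a : Fin l, ∑ b : Fin l, Real.exp (K * dia γ a.1 b.1)) ^ s := by
    rw [← h5, Finset.mul_sum]
    apply Finset.sum_le_sum
    intro u _
    rw [Finset.mul_sum]
    exact Finset.sum_le_sum (fun v _ => h1 u v)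
  refine h6.trans ?_
  have h7 := dia_sum hγ0 hγ1 hK0 l hl
  have h8 : 0 ≤ ∑ a : Fin l, ∑ b : Fin l, Real.exp (K * dia γ a.1 b.1) :=
    Finset.sum_nonneg (fun a _ => Finset.sum_nonneg (fun b _ => (Real.exp_pos _).le))
  have h9 := pow_le_pow_left₀ h8 h7 s
  refine (mul_le_mul_of_nonneg_left h9 (Real.exp_pos _).le).trans ?_
  have hcard : (Fintype.card (Fin s → Fin l) : ℝ) = (l : ℝ) ^ s := by
    simp
  rw [hcard, mul_pow, ← Real.exp_nat_mul]
  have h10 : ((l : ℝ) ^ 2) ^ s = ((l : ℝ) ^ s) ^ 2 := by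
    rw [← pow_mul, ← pow_mul, mul_comm]
  rw [h10]
  have h11 : Real.exp (2 * β * O) * (((l : ℝ) ^ s) ^ 2 *
      Real.exp (s * (2 * (K * Real.exp K) / (1 - γ) * (l : ℝ) ^ (-γ)))) =
      Real.exp (2 * β * O + s * (2 * (K * Real.exp K) / (1 - γ) * (l : ℝ) ^ (-γ))) *
        ((l : ℝ) ^ s) ^ 2 := by
    rw [Real.exp_add]; ring
  rw [h11]
  apply mul_le_mul_of_nonneg_right _ (by positivity)
  apply Real.exp_le_exp.mpr
  have hlg : 0 < (l : ℝ) ^ (-γ) := Real.rpow_pos_of_pos hlpos _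
  have h12 : (s : ℝ) * (s : ℝ) ^ (1 - γ) = (s : ℝ) ^ (2 - γ) := by
    have : 2 - γ = 1 + (1 - γ) := by ring
    rw [this, Real.rpow_add hspos, Real.rpow_one]
  have h13 : (s : ℝ) ≤ (s : ℝ) ^ (2 - γ) := by
    have : (s : ℝ) = (s : ℝ) ^ (1 : ℝ) := (Real.rpow_one _).symm
    conv_lhs => rw [this]
    apply Real.rpow_le_rpow_of_exponent_le
    · exact_mod_cast hs
    · linarith
  have h14 : O = (2 * C0 α / (1 - γ)) * ((s : ℝ) ^ (2 - γ) * (l : ℝ) ^ (-γ)) := by
    rw [hO, ← h12]; ring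
  have h15 : 2 * β * O ≤ (4 * β * C0 α / (1 - γ)) * X := by
    rw [h14]
    have h16 : 0 ≤ 4 * β * C0 α / (1 - γ) := by positivity
    have h17 := mul_le_mul_of_nonneg_left hX h16
    refine le_trans (le_of_eq ?_) h17
    ring
  have h18 : (s : ℝ) * (2 * (K * Real.exp K) / (1 - γ) * (l : ℝ) ^ (-γ)) ≤
      (2 * (K * Real.exp K) / (1 - γ)) * X := by
    have h19 : 0 ≤ 2 * (K * Real.exp K) / (1 - γ) := by positivity
    have h20 : (s : ℝ) * (l : ℝ) ^ (-γ) ≤ X :=
      (mul_le_mul_of_nonneg_right h13 hlg.le).trans hX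
    have h21 := mul_le_mul_of_nonneg_left h20 h19
    refine le_trans (le_of_eq ?_) h21
    ring
  have h22 : (4 * β * C0 α + 2 * (K * Real.exp K)) / (1 - γ) * X =
      (4 * β * C0 α / (1 - γ)) * X + (2 * (K * Real.exp K) / (1 - γ)) * X := by ring
  rw [h22]
  linarith

end Pool.Agent.Dgc
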